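import Mathlib

/-!
# Matchings of a finite set into its neighbours

`Mt N X` says that the elements of `X` have distinct representatives in their neighbour sets.
-/

set_option autoImplicit false
set_option linter.unusedSectionVars false

namespace Pool.Agent.Q164.PG

open Finset

variable {α ω : Type*} [DecidableEq α] [DecidableEq ω]

/-- `X` has a system of distinct representatives for the neighbour sets `N x`. -/
def Mt (N : α → Finset ω) (X : Finset α) : Prop :=
  ∃ f : α → ω, (∀ x ∈ X, f x ∈ N x) ∧ Set.InjOn f (X : Set α)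

lemma Mt.mono {N : α → Finset ω} {X Y : Finset α} (h : Mt N X) (hY : Y ⊆ X) : Mt N Y := by
  obtain ⟨f, hf, hi⟩ := h
  exact ⟨f, fun x hx => hf x (hY hx), hi.mono (by exact_mod_cast hY)⟩

lemma Mt.mono_left {N N' : α → Finset ω} {X : Finset α} (h : Mt N X)
    (hN : ∀ x ∈ X, N x ⊆ N' x) : Mt N' X := by
  obtain ⟨f, hf, hi⟩ := h
  exact ⟨f, fun x hx => hN x hx (hf x hx), hi⟩

lemma mt_empty [Nonempty ω] (N : α → Finset ω) : Mt N ∅ :=
  ⟨fun _ => Classical.arbitrary ω, by simp, by simp⟩

lemma Mt.card_le {N : α → Finset ω} {X : Finset α} (h : Mt N X) : #X ≤ #(X.biUnion N) := by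
  obtain ⟨f, hf, hi⟩ := h
  exact card_le_card_of_injOn f (fun x hx => by
    simp only [coe_biUnion, Set.mem_iUnion]
    exact ⟨x, hx, hf x hx⟩) hi

theorem mt_iff [Nonempty ω] (N : α → Finset ω) (X : Finset α) :
    Mt N X ↔ ∀ Y ⊆ X, #Y ≤ #(Y.biUnion N) := by
  classical
  constructor
  · intro h Y hY
    exact (h.mono hY).card_le
  · intro h
    have key := (Finset.all_card_le_biUnion_card_iff_exists_injective
      (fun x : {x // x ∈ X} => N x.1)).1 (by
        intro s
        have h1 := h (s.map (Function.Embedding.subtype _)) (by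
          intro x hx
          simp only [mem_map, Function.Embedding.coe_subtype] at hx
          obtain ⟨a, _, rfl⟩ := hx
          exact a.2)
        rw [card_map] at h1
        refine h1.trans (card_le_card ?_)
        intro w hw
        simp only [mem_biUnion, mem_map, Function.Embedding.coe_subtype] at hw ⊢
        obtain ⟨a, ⟨b, hb, rfl⟩, hw⟩ := hw
        exact ⟨b, hb, hw⟩)
    obtain ⟨f, hf, hx⟩ := key
    refine ⟨fun x => if h : x ∈ X then f ⟨x, h⟩ else Classical.arbitrary ω, ?_, ?_⟩
    · intro x hxX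
      simp only [hxX, dif_pos]
      exact hx ⟨x, hxX⟩
    · intro x hxX y hyX hxy
      have hxX' : x ∈ X := hxX
      have hyX' : y ∈ X := hyX
      simp only [hxX', hyX', dif_pos] at hxy
      have := hf hxy
      simpa using this

/-- A map that does not shrink neighbour sets carries matchable sets to matchable sets. -/
lemma Mt.image {N : α → Finset ω} {X : Finset α} (h : Mt N X) (φ : α → α)
    (hφ : Set.InjOn φ (X : Set α)) (hN : ∀ x ∈ X, N x ⊆ N (φ x)) : Mt N (X.image φ) := by
  obtain ⟨f, hf, hi⟩ := h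
  classical
  by_cases hne : Nonempty α
  swap
  · refine ⟨f, ?_, ?_⟩
    · intro x; exact absurd ⟨x⟩ hne
    · intro x; exact absurd ⟨x⟩ hne
  refine ⟨fun y => f (Function.invFunOn φ (X : Set α) y), ?_, ?_⟩
  · intro y hy
    rw [mem_image] at hy
    obtain ⟨x, hx, rfl⟩ := hy
    have h1 : Function.invFunOn φ (X : Set α) (φ x) = x := hφ.leftInvOn_invFunOn hx
    simp only [h1]
    exact hN x hx (hf x hx)
  · intro y hy z hz hyz
    have hy' : y ∈ X.image φ := hy
    have hz' : z ∈ X.image φ := hz
    rw [mem_image] at hy' hz'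
    obtain ⟨x, hx, rfl⟩ := hy'
    obtain ⟨x', hx', rfl⟩ := hz'
    have h1 : Function.invFunOn φ (X : Set α) (φ x) = x := hφ.leftInvOn_invFunOn hx
    have h2 : Function.invFunOn φ (X : Set α) (φ x') = x' := hφ.leftInvOn_invFunOn hx'
    simp only [h1, h2] at hyz
    rw [hi hx hx' hyz]

/-- If no element of `X \ I` can be added to the matchable set `I`, then there is a part `S` of
`I` such that `S` together with all of `X \ I` has at most `#S` neighbours. -/
theorem tight [Nonempty ω] (N : α → Finset ω) {I X : Finset α} (hI : Mt N I)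
    (hmax : ∀ t ∈ X \ I, ¬ Mt N (insert t I)) :
    ∃ S ⊆ I, #((S ∪ (X \ I)).biUnion N) ≤ #S := by
  classical
  have hall := (mt_iff N I).1 hI
  -- tight sets
  let T : Finset (Finset α) := I.powerset.filter (fun S => #(S.biUnion N) ≤ #S)
  have hTe : (∅ : Finset α) ∈ T := by simp [T]
  obtain ⟨S, hS, hSmax⟩ := exists_max_image T (fun S => #S) ⟨∅, hTe⟩
  have hSI : S ⊆ I := by
    have := (mem_filter.1 hS).1
    exact mem_powerset.1 this
  have hSt : #(S.biUnion N) ≤ #S := (mem_filter.1 hS).2
  have hunion : ∀ S' ∈ T, S' ⊆ S := by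
    intro S' hS'
    have hS'I : S' ⊆ I := mem_powerset.1 (mem_filter.1 hS').1
    have hS't : #(S'.biUnion N) ≤ #S' := (mem_filter.1 hS').2
    have h1 : #((S ∪ S').biUnion N) ≤ #(S ∪ S') := by
      have e1 := card_union_add_card_inter (S.biUnion N) (S'.biUnion N)
      have e2 := card_union_add_card_inter S S'
      have e3 : (S ∪ S').biUnion N = S.biUnion N ∪ S'.biUnion N := by
        ext w; simp only [mem_biUnion, mem_union]
        constructor
        · rintro ⟨a, h | h, hw⟩
          · exact Or.inl ⟨a, h, hw⟩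
          · exact Or.inr ⟨a, h, hw⟩
        · rintro (⟨a, h, hw⟩ | ⟨a, h, hw⟩)
          · exact ⟨a, Or.inl h, hw⟩
          · exact ⟨a, Or.inr h, hw⟩
      have e4 : #(S ∩ S') ≤ #((S ∩ S').biUnion N) :=
        hall _ (inter_subset_left.trans hSI)
      have e5 : (S ∩ S').biUnion N ⊆ S.biUnion N ∩ S'.biUnion N := by
        intro w; simp only [mem_biUnion, mem_inter]
        rintro ⟨a, ⟨h, h'⟩, hw⟩
        exact ⟨⟨a, h, hw⟩, ⟨a, h', hw⟩⟩
      have e6 := card_le_card e5
      rw [e3]; omega
    have h2 : S ∪ S' ∈ T := mem_filter.2 ⟨mem_powerset.2 (union_subset hSI hS'I), h1⟩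
    have h3 := hSmax _ h2
    have h4 : S = S ∪ S' := eq_of_subset_of_card_le subset_union_left h3
    rw [h4]; exact subset_union_right
  refine ⟨S, hSI, ?_⟩
  have hsub : (S ∪ (X \ I)).biUnion N ⊆ S.biUnion N := by
    intro w hw
    rw [mem_biUnion] at hw
    obtain ⟨t, ht, hw⟩ := hw
    rw [mem_union] at ht
    rcases ht with ht | ht
    · exact mem_biUnion.2 ⟨t, ht, hw⟩
    · have h1 := hmax t ht
      rw [mt_iff] at h1
      push Not at h1
      obtain ⟨Y, hYs, hYc⟩ := h1
      have htY : t ∈ Y := by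
        by_contra hc
        have : Y ⊆ I := by
          intro y hy
          have := hYs hy
          rw [mem_insert] at this
          rcases this with rfl | h
          · exact absurd hy hc
          · exact h
        have := hall Y this
        omega
      have hYI : Y.erase t ⊆ I := by
        intro y hy
        rw [mem_erase] at hy
        have := hYs hy.2
        rw [mem_insert] at this
        rcases this with rfl | h
        · exact absurd rfl hy.1
        · exact h
      have h2 : (Y.erase t).biUnion N ⊆ Y.biUnion N := biUnion_subset_biUnion_of_subset_left _ (erase_subset _ _)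
      have h3 := card_le_card h2
      have h4 := card_erase_add_one htY
      have h5 := hall _ hYI
      have h6 : Y.erase t ∈ T := mem_filter.2 ⟨mem_powerset.2 hYI, by omega⟩
      have h7 := hunion _ h6
      have h8 : (Y.erase t).biUnion N = Y.biUnion N := eq_of_subset_of_card_le h2 (by omega)
      have h9 : w ∈ Y.biUnion N := mem_biUnion.2 ⟨t, htY, hw⟩
      rw [← h8] at h9
      exact biUnion_subset_biUnion_of_subset_left _ h7 h9
  exact (card_le_card hsub).trans hSt

/-- König's theorem. -/
theorem konig [Nonempty ω] (N : α → Finset ω) (X : Finset α) :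
    ∃ I Y : Finset α, I ⊆ X ∧ Y ⊆ X ∧ Mt N I ∧ #(X \ Y) + #(Y.biUnion N) ≤ #I := by
  classical
  let T : Finset (Finset α) := X.powerset.filter (fun S => Mt N S)
  have hTe : (∅ : Finset α) ∈ T := by simp [T, mt_empty]
  obtain ⟨I, hI, hImax⟩ := exists_max_image T (fun S => #S) ⟨∅, hTe⟩
  have hIX : I ⊆ X := mem_powerset.1 (mem_filter.1 hI).1
  have hIm : Mt N I := (mem_filter.1 hI).2
  obtain ⟨S, hS, hc⟩ := tight N (X := X) hIm (by
    intro t ht hm
    have h1 : insert t I ∈ T := by
      refine mem_filter.2 ⟨mem_powerset.2 ?_, hm⟩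
      intro y hy
      rw [mem_insert] at hy
      rcases hy with rfl | h
      · exact (mem_sdiff.1 ht).1
      · exact hIX h
    have h2 := hImax _ h1
    rw [card_insert_of_notMem (mem_sdiff.1 ht).2] at h2
    omega)
  refine ⟨I, S ∪ (X \ I), hIX, union_subset (hS.trans hIX) sdiff_subset, hIm, ?_⟩
  have h1 : X \ (S ∪ (X \ I)) = I \ S := by
    ext x; simp only [mem_sdiff, mem_union, not_or, not_and, not_not]
    constructor
    · rintro ⟨h1, h2, h3⟩; exact ⟨h3 h1, h2⟩
    · rintro ⟨h1, h2⟩; exact ⟨hIX h1, h2, fun _ => h1⟩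
  rw [h1]
  have h2 := card_sdiff_add_card_eq_card hS
  omega

/-- A matchable set can be extended by elements of another one to the size of the other one. -/
theorem augment [Nonempty ω] (N : α → Finset ω) {I J : Finset α} (hI : Mt N I) (hJ : Mt N J) :
    ∃ K, I ⊆ K ∧ K ⊆ I ∪ J ∧ Mt N K ∧ #J ≤ #K := by
  classical
  let T : Finset (Finset α) := (I ∪ J).powerset.filter (fun S => I ⊆ S ∧ Mt N S)
  have hTe : I ∈ T := mem_filter.2 ⟨mem_powerset.2 subset_union_left, subset_rfl, hI⟩
  obtain ⟨K, hK, hKmax⟩ := exists_max_image T (fun S => #S) ⟨I, hTe⟩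
  have hKX : K ⊆ I ∪ J := mem_powerset.1 (mem_filter.1 hK).1
  have hIK : I ⊆ K := (mem_filter.1 hK).2.1
  have hKm : Mt N K := (mem_filter.1 hK).2.2
  obtain ⟨S, hS, hc⟩ := tight N (X := I ∪ J) hKm (by
    intro t ht hm
    have h1 : insert t K ∈ T := by
      refine mem_filter.2 ⟨mem_powerset.2 ?_, hIK.trans (subset_insert _ _), hm⟩
      intro y hy
      rw [mem_insert] at hy
      rcases hy with rfl | h
      · exact (mem_sdiff.1 ht).1
      · exact hKX h
    have h2 := hKmax _ h1
    rw [card_insert_of_notMem (mem_sdiff.1 ht).2] at h2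
    omega)
  refine ⟨K, hIK, hKX, hKm, ?_⟩
  set Y := S ∪ ((I ∪ J) \ K) with hY
  have h1 : #(J ∩ Y) ≤ #(Y.biUnion N) :=
    (hJ.mono inter_subset_left).card_le.trans
      (card_le_card (biUnion_subset_biUnion_of_subset_left _ inter_subset_right))
  have h2 : J \ Y ⊆ K \ S := by
    intro x hx
    rw [hY] at hx
    simp only [mem_sdiff, mem_union, not_or, not_and, not_not] at hx ⊢
    exact ⟨hx.2.2 (Or.inr hx.1), hx.2.1⟩
  have h3 := card_le_card h2
  have h4 := card_sdiff_add_card_eq_card hS
  have h5 := card_sdiff_add_card_inter J Y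
  omega

/-- A map that respects the type, from `F` into `R`. -/
theorem exists_typed {β τ : Type*} [DecidableEq β] [DecidableEq τ] (F R : Finset β) (t : β → τ)
    (h : ∀ i, #(F.filter (fun x => t x = i)) ≤ #(R.filter (fun x => t x = i))) :
    ∃ φ : β → β, (∀ x ∈ F, φ x ∈ R ∧ t (φ x) = t x) ∧ Set.InjOn φ (F : Set β) := by
  classical
  have key : ∀ i, ∃ φ : β → β, (∀ x ∈ F.filter (fun x => t x = i),
      φ x ∈ R.filter (fun x => t x = i)) ∧
      Set.InjOn φ ((F.filter (fun x => t x = i) : Finset β) : Set β) := by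
    intro i
    by_cases hne : (R.filter (fun x => t x = i)).Nonempty
    · have : Nonempty β := ⟨hne.choose⟩
      obtain ⟨g, hg1, hg2⟩ := Finset.exists_subset_card_eq (h i)
      have e : F.filter (fun x => t x = i) ≃ g := Finset.equivOfCardEq hg2.symm
      refine ⟨fun x => if hx : x ∈ F.filter (fun x => t x = i) then (e ⟨x, hx⟩ : β) else x, ?_, ?_⟩
      · intro x hx
        simp only [hx, dif_pos]
        exact hg1 (e ⟨x, hx⟩).2
      · intro x hx y hy hxy
        have hx' : x ∈ F.filter (fun x => t x = i) := hx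
        have hy' : y ∈ F.filter (fun x => t x = i) := hy
        simp only [hx', hy', dif_pos] at hxy
        have := e.injective (Subtype.ext hxy)
        simpa using this
    · rw [not_nonempty_iff_eq_empty] at hne
      have h1 := h i
      rw [hne, card_empty] at h1
      have h2 : F.filter (fun x => t x = i) = ∅ := card_eq_zero.1 (by omega)
      refine ⟨id, ?_, ?_⟩
      · rw [h2]; simp
      · rw [h2]; simp
  choose φ hφ1 hφ2 using key
  refine ⟨fun x => φ (t x) x, ?_, ?_⟩
  · intro x hx
    have := hφ1 (t x) x (mem_filter.2 ⟨hx, rfl⟩)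
    rw [mem_filter] at this
    exact this
  · intro x hx y hy hxy
    have hx1 := hφ1 (t x) x (mem_filter.2 ⟨hx, rfl⟩)
    have hy1 := hφ1 (t y) y (mem_filter.2 ⟨hy, rfl⟩)
    simp only at hxy
    have h1 := (mem_filter.1 hx1).2
    have h2 := (mem_filter.1 hy1).2
    have h3 : t x = t y := by rw [← h1, ← h2, hxy]
    rw [← h3] at hxy
    refine hφ2 (t x) ?_ ?_ hxy
    · simpa using hx
    · simp only [coe_filter, Set.mem_ofPred_eq]
      exact ⟨hy, h3.symm⟩

end Pool.Agent.Q164.PG
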