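import Pool.Agent.Q164.PG.Hall

/-!
# Sets with the same signature are interchangeable

The setting: `G` is a presentation of a transversal matroid and `Nd` is a presentation of its
dual, both given by neighbour sets.
-/

set_option autoImplicit false
set_option linter.unusedSectionVars false

namespace Pool.Agent.Q164.PG

open Finset

variable {α ω ω' : Type*} [DecidableEq α] [DecidableEq ω] [DecidableEq ω']

/-- Matching into vertices with the property `P`. -/
def MtP (N : α → Finset ω) (P : ω → Prop) (X : Finset α) : Prop :=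
  ∃ f : α → ω, (∀ x ∈ X, f x ∈ N x ∧ P (f x)) ∧ Set.InjOn f (X : Set α)

lemma MtP.mt {N : α → Finset ω} {P : ω → Prop} {X : Finset α} (h : MtP N P X) : Mt N X := by
  obtain ⟨f, hf, hi⟩ := h
  exact ⟨f, fun x hx => (hf x hx).1, hi⟩

lemma mt_sdiff_iff {N : α → Finset ω} {S : Finset ω} {X : Finset α} :
    Mt (fun x => N x \ S) X ↔ MtP N (fun w => w ∉ S) X := by
  simp [Mt, MtP, mem_sdiff]

lemma MtP.imp {N : α → Finset ω} {P Q : ω → Prop} {X : Finset α} (h : MtP N P X)
    (hPQ : ∀ x ∈ X, ∀ w ∈ N x, P w → Q w) : MtP N Q X := by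
  obtain ⟨f, hf, hi⟩ := h
  exact ⟨f, fun x hx => ⟨(hf x hx).1, hPQ x hx _ (hf x hx).1 (hf x hx).2⟩, hi⟩

lemma MtP.union {N : α → Finset ω} {P Q : ω → Prop} {X Y : Finset α} (hX : MtP N P X)
    (hY : MtP N Q Y) (h : ∀ w, P w → Q w → False) : MtP N (fun w => P w ∨ Q w) (X ∪ Y) := by
  classical
  obtain ⟨f, hf, hfi⟩ := hX
  obtain ⟨g, hg, hgi⟩ := hY
  refine ⟨fun x => if x ∈ X then f x else g x, ?_, ?_⟩
  · intro x hx
    rw [mem_union] at hx
    by_cases hxX : x ∈ X
    · simp only [hxX, if_true]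
      exact ⟨(hf x hxX).1, Or.inl (hf x hxX).2⟩
    · simp only [hxX, if_false]
      have hxY : x ∈ Y := hx.resolve_left hxX
      exact ⟨(hg x hxY).1, Or.inr (hg x hxY).2⟩
  · intro x hx y hy hxy
    have hx' : x ∈ X ∪ Y := hx
    have hy' : y ∈ X ∪ Y := hy
    rw [mem_union] at hx' hy'
    by_cases hxX : x ∈ X <;> by_cases hyX : y ∈ X
    · simp only [hxX, hyX, if_true] at hxy
      exact hfi hxX hyX hxy
    · simp only [hxX, hyX, if_true, if_false] at hxy
      exact (h (f x) (hf x hxX).2 (by rw [hxy]; exact (hg y (hy'.resolve_left hyX)).2)).elim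
    · simp only [hxX, hyX, if_true, if_false] at hxy
      exact (h (f y) (hf y hyX).2 (by rw [← hxy]; exact (hg x (hx'.resolve_left hxX)).2)).elim
    · simp only [hxX, hyX, if_false] at hxy
      exact hgi (hx'.resolve_left hxX) (hy'.resolve_left hyX) hxy

/-- In a maximal presentation clones have the same neighbours. -/
theorem clone [Nonempty ω] (G : α → Finset ω)
    (hmax : ∀ G' : α → Finset ω, (∀ x, G x ⊆ G' x) → (∀ X, Mt G' X → Mt G X) → ∀ x, G' x ⊆ G x)
    {e f : α} (hc : ∀ X : Finset α, Mt G (X.image (Equiv.swap e f)) → Mt G X) : G e ⊆ G f := by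
  classical
  intro w hwe
  by_contra hwf
  have hef : e ≠ f := by rintro rfl; exact hwf hwe
  set G' : α → Finset ω := Function.update G f (insert w (G f)) with hG'
  have h1 : ∀ x, G x ⊆ G' x := by
    intro x
    by_cases hx : x = f
    · subst hx; rw [hG', Function.update_self]; exact subset_insert _ _
    · rw [hG', Function.update_of_ne hx]
  have h2 : ∃ X, Mt G' X ∧ ¬ Mt G X := by
    by_contra hc2
    push Not at hc2
    have := hmax G' h1 hc2 f
    rw [hG', Function.update_self] at this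
    exact hwf (this (mem_insert_self _ _))
  obtain ⟨X, hX', hX⟩ := h2
  rw [mt_iff] at hX
  push Not at hX
  obtain ⟨Y, hYX, hY⟩ := hX
  -- a minimal set violating Hall's condition
  let T : Finset (Finset α) := X.powerset.filter (fun S => ¬ Mt G S)
  have hYT : Y ∈ T := mem_filter.2 ⟨mem_powerset.2 hYX, fun h => by
    have := h.card_le; omega⟩
  obtain ⟨Z, hZ, hZmin⟩ := exists_min_image T (fun S => #S) ⟨Y, hYT⟩
  have hZX : Z ⊆ X := mem_powerset.1 (mem_filter.1 hZ).1
  have hZn : ¬ Mt G Z := (mem_filter.1 hZ).2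
  have hZh : #(Z.biUnion G) < #Z := by
    have h3 := hZn
    rw [mt_iff] at h3
    push Not at h3
    obtain ⟨W, hWZ, hW⟩ := h3
    have hWT : W ∈ T := mem_filter.2 ⟨mem_powerset.2 (hWZ.trans hZX), fun h => by
      have := h.card_le; omega⟩
    have h4 := hZmin W hWT
    have h5 := eq_of_subset_of_card_le hWZ h4
    rw [← h5]; exact hW
  have hZm : Mt G' Z := hX'.mono hZX
  have hfZ : f ∈ Z := by
    by_contra hfZ
    apply hZn
    refine hZm.mono_left ?_
    intro x hx
    have hxf : x ≠ f := by rintro rfl; exact hfZ hx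
    rw [hG', Function.update_of_ne hxf]
  obtain ⟨g, hg, hgi⟩ := hZm
  have hgf : g f = w := by
    by_contra hne
    apply hZn
    refine ⟨g, ?_, hgi⟩
    intro x hx
    have := hg x hx
    by_cases hxf : x = f
    · subst hxf
      rw [hG', Function.update_self, mem_insert] at this
      exact this.resolve_left hne
    · rwa [hG', Function.update_of_ne hxf] at this
  by_cases heZ : e ∈ Z
  · have h6 : Z.biUnion G' ⊆ Z.biUnion G := by
      intro v hv
      rw [mem_biUnion] at hv ⊢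
      obtain ⟨x, hx, hv⟩ := hv
      by_cases hxf : x = f
      · subst hxf
        rw [hG', Function.update_self, mem_insert] at hv
        rcases hv with rfl | hv
        · exact ⟨e, heZ, hwe⟩
        · exact ⟨x, hx, hv⟩
      · rw [hG', Function.update_of_ne hxf] at hv
        exact ⟨x, hx, hv⟩
    have h7 := card_le_card h6
    have h8 := (hX'.mono hZX).card_le
    omega
  · apply hZn
    apply hc
    -- the image of `Z` is `Z - f + e`
    refine ⟨fun x => if x = e then w else g x, ?_, ?_⟩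
    · intro x hx
      rw [mem_image] at hx
      obtain ⟨y, hy, rfl⟩ := hx
      have hye : y ≠ e := by rintro rfl; exact heZ hy
      by_cases hyf : y = f
      · subst hyf
        rw [Equiv.swap_apply_right]
        simp only [if_true]
        exact hwe
      · rw [Equiv.swap_apply_of_ne_of_ne hye hyf]
        simp only [hye, if_false]
        have := hg y hy
        rwa [hG', Function.update_of_ne hyf] at this
    · have hmem : ∀ x ∈ ((Z.image (Equiv.swap e f) : Finset α) : Set α), x ≠ e → x ∈ Z ∧ x ≠ f := by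
        intro x hx hxe
        have hx' : x ∈ Z.image (Equiv.swap e f) := hx
        rw [mem_image] at hx'
        obtain ⟨y, hy, rfl⟩ := hx'
        have hye : y ≠ e := by rintro rfl; exact heZ hy
        have hyf : y ≠ f := by
          rintro rfl
          exact hxe (Equiv.swap_apply_right _ _)
        rw [Equiv.swap_apply_of_ne_of_ne hye hyf]
        exact ⟨hy, hyf⟩
      intro x hx y hy hxy
      by_cases hxe : x = e <;> by_cases hye : y = e
      · rw [hxe, hye]
      · exfalso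
        obtain ⟨hyZ, hyf⟩ := hmem y hy hye
        simp only [hxe, hye, if_true, if_false] at hxy
        rw [← hgf] at hxy
        exact hyf (hgi hyZ hfZ hxy.symm)
      · exfalso
        obtain ⟨hxZ, hxf⟩ := hmem x hx hxe
        simp only [hxe, hye, if_true, if_false] at hxy
        rw [← hgf] at hxy
        exact hxf (hgi hxZ hfZ hxy)
      · simp only [hxe, hye, if_false] at hxy
        exact hgi (hmem x hx hxe).1 (hmem y hy hye).1 hxy

/-- Every presentation can be enlarged to a maximal one. -/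
theorem exists_max_pres [Fintype α] [Fintype ω] (N : α → Finset ω) :
    ∃ G : α → Finset ω, (∀ X, Mt G X ↔ Mt N X) ∧
      ∀ G' : α → Finset ω, (∀ x, G x ⊆ G' x) → (∀ X, Mt G' X → Mt G X) → ∀ x, G' x ⊆ G x := by
  classical
  have hfin : ({G : α → Finset ω | ∀ X, Mt G X ↔ Mt N X}).Finite := Set.toFinite _
  obtain ⟨G, hG⟩ := hfin.exists_maximal ⟨N, fun X => Iff.rfl⟩
  refine ⟨G, hG.prop, ?_⟩
  intro G' h1 h2
  have h3 : G' ∈ ({G : α → Finset ω | ∀ X, Mt G X ↔ Mt N X}) := by
    intro X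
    rw [← hG.prop X]
    exact ⟨h2 X, fun h => h.mono_left (fun x _ => h1 x)⟩
  exact hG.le_of_ge h3 h1

/-- The data of a presentation of a matroid on `E` and of a presentation of its dual. -/
structure Pair (E : Finset α) (G : α → Finset ω) (Nd : α → Finset ω') (rs : ℕ) : Prop where
  mt_iff' : ∀ X, Mt G X ↔ X ⊆ E ∧ ∃ J ⊆ E \ X, Mt Nd J ∧ #J = rs
  sub : ∀ J, Mt Nd J → J ⊆ E
  le : ∀ J, Mt Nd J → #J ≤ rs
  ex : ∃ J, Mt Nd J ∧ #J = rs

/-- Elements with the same neighbours in the dual presentation are clones. -/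
theorem Pair.swap {E : Finset α} {G : α → Finset ω} {Nd : α → Finset ω'} {rs : ℕ}
    (h : Pair E G Nd rs) {e f : α} (he : e ∈ E) (hf : f ∈ E) (hef : Nd e = Nd f) (X : Finset α)
    (hX : Mt G (X.image (Equiv.swap e f))) : Mt G X := by
  classical
  have hsw : ∀ x, x ∈ E ↔ Equiv.swap e f x ∈ E := by
    intro x
    by_cases hxe : x = e
    · subst hxe; simp [he, hf]
    · by_cases hxf : x = f
      · subst hxf; simp [he, hf]
      · rw [Equiv.swap_apply_of_ne_of_ne hxe hxf]
  rw [h.mt_iff'] at hX ⊢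
  obtain ⟨h1, J, h2, h3, h4⟩ := hX
  refine ⟨?_, J.image (Equiv.swap e f), ?_, ?_, ?_⟩
  · intro x hx
    rw [hsw]
    exact h1 (mem_image_of_mem _ hx)
  · intro x hx
    rw [mem_image] at hx
    obtain ⟨y, hy, rfl⟩ := hx
    have h5 := h2 hy
    rw [mem_sdiff] at h5 ⊢
    refine ⟨(hsw y).1 h5.1, fun hc => h5.2 ?_⟩
    rw [mem_image]
    exact ⟨_, hc, by simp⟩
  · refine h3.image _ (Equiv.injective _).injOn ?_
    intro x _
    by_cases hxe : x = e
    · subst hxe; simp [hef]
    · by_cases hxf : x = f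
      · subst hxf; simp [hef]
      · rw [Equiv.swap_apply_of_ne_of_ne hxe hxf]
  · rw [card_image_of_injective _ (Equiv.injective _), h4]

/-- The counting step. -/
theorem Pair.structure_ [Nonempty ω] [Nonempty ω'] {E U : Finset α} {G : α → Finset ω}
    {Nd : α → Finset ω'} {rs lam : ℕ} (h : Pair E G Nd rs)
    (hlam : ∀ I ⊆ U, ∀ I' ⊆ E \ U, Mt G I → Mt G I' → #I + #I' + rs ≤ #E + lam) :
    ∃ YU YV D' : Finset α, YU ⊆ U ∧ YV ⊆ E \ U ∧
      #(YU.biUnion G ∩ YV.biUnion G) ≤ lam ∧ D' ⊆ E \ (YU ∪ YV) ∧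
      #((E \ (YU ∪ YV)) \ D') ≤ lam ∧
      MtP G (fun w => w ∉ YU.biUnion G ∪ YV.biUnion G) D' ∧
      ∀ I ⊆ E \ (YU ∪ YV), Mt Nd I → #I ≤ lam := by
  classical
  obtain ⟨IU, YU, h1, h2, h3, h4⟩ := konig G U
  obtain ⟨IV, YV, g1, g2, g3, g4⟩ := konig G (E \ U)
  have hl := hlam IU h1 IV g1 h3 g3
  set A := YU.biUnion G with hA
  set B := YV.biUnion G with hB
  have hAB := card_union_add_card_inter A B
  have hD : #(E \ (YU ∪ YV)) ≤ #(U \ YU) + #((E \ U) \ YV) := by
    have : E \ (YU ∪ YV) ⊆ (U \ YU) ∪ ((E \ U) \ YV) := by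
      intro x hx
      simp only [mem_sdiff, mem_union, not_or] at hx ⊢
      by_cases hxU : x ∈ U
      · exact Or.inl ⟨hxU, hx.2.1⟩
      · exact Or.inr ⟨⟨hx.1, hxU⟩, hx.2.2⟩
    exact (card_le_card this).trans (card_union_le _ _)
  have count : ∀ J, Mt Nd J → #J = rs → ∃ D' : Finset α, D' ⊆ (E \ (YU ∪ YV)) \ J ∧
      MtP G (fun w => w ∉ A ∪ B) D' ∧ #E ≤ #D' + #(A ∪ B) + rs := by
    intro J hJ hJc
    have hJE := h.sub J hJ
    have hb : Mt G (E \ J) := by
      rw [h.mt_iff']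
      refine ⟨sdiff_subset, J, ?_, hJ, hJc⟩
      intro x hx
      simp only [mem_sdiff, not_and, not_not]
      exact ⟨hJE hx, fun _ => hx⟩
    obtain ⟨f, hf, hfi⟩ := hb
    refine ⟨(E \ J).filter (fun x => f x ∉ A ∪ B), ?_, ⟨f, ?_, ?_⟩, ?_⟩
    · intro x hx
      rw [mem_filter, mem_sdiff] at hx
      obtain ⟨⟨hxE, hxJ⟩, hxf⟩ := hx
      have hfx := hf x (mem_sdiff.2 ⟨hxE, hxJ⟩)
      simp only [mem_sdiff, mem_union, not_or] at hxf ⊢
      refine ⟨⟨hxE, fun hc => hxf.1 ?_, fun hc => hxf.2 ?_⟩, hxJ⟩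
      · exact mem_biUnion.2 ⟨x, hc, hfx⟩
      · exact mem_biUnion.2 ⟨x, hc, hfx⟩
    · intro x hx
      rw [mem_filter] at hx
      exact ⟨hf x hx.1, hx.2⟩
    · refine hfi.mono ?_
      intro x hx
      have hx' := mem_filter.1 (show x ∈ (E \ J).filter (fun x => f x ∉ A ∪ B) from hx)
      exact hx'.1
    · have e1 : #((E \ J).filter (fun x => f x ∈ A ∪ B)) ≤ #(A ∪ B) := by
        refine card_le_card_of_injOn f ?_ ?_
        · intro x hx
          have hx' := mem_filter.1 (show x ∈ (E \ J).filter (fun x => f x ∈ A ∪ B) from hx)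
          exact hx'.2
        · refine hfi.mono ?_
          intro x hx
          have hx' := mem_filter.1 (show x ∈ (E \ J).filter (fun x => f x ∈ A ∪ B) from hx)
          exact hx'.1
      have e2 := card_filter_add_card_filter_not (s := E \ J) (fun x => f x ∈ A ∪ B)
      have e3 := card_sdiff_add_card_eq_card hJE
      omega
  obtain ⟨J₀, hJ₀, hJ₀c⟩ := h.ex
  obtain ⟨D', k1, k2, k3⟩ := count J₀ hJ₀ hJ₀c
  have k4 : D' ⊆ E \ (YU ∪ YV) := k1.trans sdiff_subset
  have k5 := card_le_card k4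
  have k6 := card_sdiff_add_card_eq_card k4
  have k7 : #(A ∩ B) ≤ lam := by omega
  refine ⟨YU, YV, D', h2, g2, k7, k4, by omega, k2, ?_⟩
  intro I hI hIm
  obtain ⟨J, m1, m2, m3, m4⟩ := augment Nd hIm hJ₀
  have m5 := h.le J m3
  obtain ⟨D'', n1, n2, n3⟩ := count J m3 (by omega)
  have n4 : D'' ⊆ (E \ (YU ∪ YV)) \ I := n1.trans (sdiff_subset_sdiff subset_rfl m1)
  have n5 := card_le_card n4
  have n6 := card_sdiff_add_card_eq_card hI
  omega

/-- The exchange step for the part of `X` that lies in `YU`. -/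
theorem core [Nonempty ω] {G : α → Finset ω} {lam : ℕ} {YU YV D D' : Finset α} {A B : Finset ω}
    (hA : ∀ x ∈ YU, G x ⊆ A) (hB : ∀ x ∈ YV, G x ⊆ B)
    (hDU : Disjoint D YU) (hDV : Disjoint D YV) (hUV : Disjoint YU YV)
    (hcard : #(D \ D') ≤ lam) (hmD : MtP G (fun w => w ∉ A ∪ B) D')
    {τ : Type*} [DecidableEq τ] (ty : ω → τ)
    (hty : ∀ d ∈ D, ∀ w w', ty w = ty w' → w ∈ G d → w' ∈ G d)
    {X₁ X₁' T Z₁ : Finset α} (hX : X₁ ⊆ YU) (hX' : X₁' ⊆ YU) (hT : T ⊆ D) (hZ : Z₁ ⊆ YV)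
    (hsig : ∀ F C' : Finset ω, F ⊆ A \ B → #F ≤ lam → C' ⊆ A ∩ B →
      MtP G (fun w => w ∉ F ∪ C') X₁ → ∃ F' ⊆ A \ B,
        (∀ i, #(F.filter (fun w => ty w = i)) ≤ #(F'.filter (fun w => ty w = i))) ∧
        MtP G (fun w => w ∉ F' ∪ C') X₁')
    (hm : Mt G (X₁ ∪ T ∪ Z₁)) : Mt G (X₁' ∪ T ∪ Z₁) := by
  classical
  obtain ⟨f, hf, hfi⟩ := hm
  have hfX : ∀ x ∈ X₁, f x ∈ G x := fun x hx => hf x (by simp [hx])
  have hfT : ∀ x ∈ T, f x ∈ G x := fun x hx => hf x (by simp [hx])
  have hfZ : ∀ x ∈ Z₁, f x ∈ G x := fun x hx => hf x (by simp [hx])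
  have hinj : ∀ x ∈ X₁ ∪ T ∪ Z₁, ∀ y ∈ X₁ ∪ T ∪ Z₁, f x = f y → x = y := by
    intro x hx y hy hxy
    exact hfi hx hy hxy
  -- enlarge the part of `T` matched outside `A ∪ B`
  set T₀ := T.filter (fun x => f x ∉ A ∪ B) with hT₀
  have hT₀m : Mt (fun x => G x \ (A ∪ B)) T₀ := by
    rw [mt_sdiff_iff]
    refine ⟨f, ?_, ?_⟩
    · intro x hx
      rw [hT₀, mem_filter] at hx
      exact ⟨hfT x hx.1, hx.2⟩
    · intro x hx y hy hxy
      have hx' := mem_filter.1 (show x ∈ T.filter (fun x => f x ∉ A ∪ B) from hx)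
      have hy' := mem_filter.1 (show y ∈ T.filter (fun x => f x ∉ A ∪ B) from hy)
      exact hinj x (by simp [hx'.1]) y (by simp [hy'.1]) hxy
  have hTD : Mt (fun x => G x \ (A ∪ B)) (T ∩ D') :=
    (mt_sdiff_iff.2 hmD).mono inter_subset_right
  obtain ⟨K, k1, k2, k3, k4⟩ := augment _ hT₀m hTD
  have hKT : K ⊆ T := k2.trans (union_subset (filter_subset _ _) inter_subset_left)
  have hR : #(T \ K) ≤ lam := by
    have e1 := card_sdiff_add_card_eq_card hKT
    have e2 := card_sdiff_add_card_inter T D'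
    have e3 : #(T \ D') ≤ #(D \ D') := card_le_card (sdiff_subset_sdiff hT subset_rfl)
    omega
  have hRAB : ∀ x ∈ T \ K, f x ∈ A ∪ B := by
    intro x hx
    rw [mem_sdiff] at hx
    by_contra hc
    exact hx.2 (k1 (mem_filter.2 ⟨hx.1, hc⟩))
  set R := T \ K with hRdef
  have hRT : R ⊆ T := sdiff_subset
  set F := (R.image f) ∩ (A \ B) with hF
  set C' := (R.image f ∪ Z₁.image f) ∩ (A ∩ B) with hC'
  have hdXT : ∀ x ∈ YU, x ∉ T := fun x hx hxT => disjoint_left.1 hDU (hT hxT) hx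
  have hdXZ : ∀ x ∈ YU, x ∉ Z₁ := fun x hx hxT => disjoint_left.1 hUV hx (hZ hxT)
  have hdTZ : ∀ x ∈ T, x ∉ Z₁ := fun x hx hxT => disjoint_left.1 hDV (hT hx) (hZ hxT)
  obtain ⟨F', f1, f2, f3⟩ := hsig F C' inter_subset_right
    ((card_le_card inter_subset_left).trans (card_image_le.trans hR)) inter_subset_right (by
      refine ⟨f, ?_, ?_⟩
      · intro x hx
        refine ⟨hfX x hx, ?_⟩
        intro hc
        rw [mem_union, hF, hC'] at hc
        simp only [mem_inter, mem_image, mem_union] at hc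
        have hno : ∀ y ∈ T, f y ≠ f x := by
          intro y hy hyx
          have := hinj y (by simp [hy]) x (by simp [hx]) hyx
          rw [this] at hy
          exact hdXT x (hX hx) hy
        have hno' : ∀ y ∈ Z₁, f y ≠ f x := by
          intro y hy hyx
          have := hinj y (by simp [hy]) x (by simp [hx]) hyx
          rw [this] at hy
          exact hdXZ x (hX hx) hy
        rcases hc with ⟨⟨y, hy, hyx⟩, _⟩ | ⟨⟨y, hy, hyx⟩ | ⟨y, hy, hyx⟩, _⟩
        · exact hno y (hRT hy) hyx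
        · exact hno y (hRT hy) hyx
        · exact hno' y hy hyx
      · intro x hx y hy hxy
        have hx' : x ∈ X₁ := hx
        have hy' : y ∈ X₁ := hy
        exact hinj x (by simp [hx']) y (by simp [hy']) hxy)
  obtain ⟨φ, p1, p2⟩ := exists_typed F F' ty f2
  -- the four parts of the new matching
  have q1 : MtP G (fun w => w ∈ A ∧ w ∉ F' ∪ C') X₁' := by
    obtain ⟨g, hg, hgi⟩ := f3
    exact ⟨g, fun x hx => ⟨(hg x hx).1, hA x (hX' hx) (hg x hx).1, (hg x hx).2⟩, hgi⟩
  have q2 : MtP G (fun w => w ∉ A ∪ B) K := mt_sdiff_iff.1 k3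
  have q3 : MtP G (fun w => w ∈ F') (R.filter (fun x => f x ∈ F)) := by
    refine ⟨fun x => φ (f x), ?_, ?_⟩
    · intro x hx
      rw [mem_filter] at hx
      obtain ⟨r1, r2⟩ := p1 (f x) hx.2
      refine ⟨hty x (hT (hRT hx.1)) (f x) _ r2.symm (hfT x (hRT hx.1)), r1⟩
    · intro x hx y hy hxy
      have hx' := mem_filter.1 (show x ∈ R.filter (fun x => f x ∈ F) from hx)
      have hy' := mem_filter.1 (show y ∈ R.filter (fun x => f x ∈ F) from hy)
      have := p2 hx'.2 hy'.2 hxy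
      exact hinj x (by simp [hRT hx'.1]) y (by simp [hRT hy'.1]) this
  have q4 : MtP G (fun w => w ∈ B ∧ (w ∈ A → w ∈ C')) (R.filter (fun x => f x ∉ F) ∪ Z₁) := by
    refine ⟨f, ?_, ?_⟩
    · intro x hx
      rw [mem_union, mem_filter] at hx
      rcases hx with ⟨hx, hxF⟩ | hx
      · refine ⟨hfT x (hRT hx), ?_⟩
        have r1 := hRAB x hx
        rw [mem_union] at r1
        have r2 : f x ∈ R.image f := mem_image_of_mem _ hx
        have r3 : f x ∈ B := by
          by_contra hc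
          exact hxF (mem_inter.2 ⟨r2, mem_sdiff.2 ⟨r1.resolve_right hc, hc⟩⟩)
        exact ⟨r3, fun r4 => mem_inter.2 ⟨mem_union_left _ r2, mem_inter.2 ⟨r4, r3⟩⟩⟩
      · refine ⟨hfZ x hx, ?_⟩
        have r2 : f x ∈ Z₁.image f := mem_image_of_mem _ hx
        have r3 : f x ∈ B := hB x (hZ hx) (hfZ x hx)
        exact ⟨r3, fun r4 => mem_inter.2 ⟨mem_union_right _ r2, mem_inter.2 ⟨r4, r3⟩⟩⟩
    · intro x hx y hy hxy
      have hx' : x ∈ R.filter (fun x => f x ∉ F) ∪ Z₁ := hx
      have hy' : y ∈ R.filter (fun x => f x ∉ F) ∪ Z₁ := hy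
      rw [mem_union, mem_filter] at hx' hy'
      have hx2 : x ∈ X₁ ∪ T ∪ Z₁ := by
        rcases hx' with ⟨h, _⟩ | h
        · simp [hRT h]
        · simp [h]
      have hy2 : y ∈ X₁ ∪ T ∪ Z₁ := by
        rcases hy' with ⟨h, _⟩ | h
        · simp [hRT h]
        · simp [h]
      exact hinj x hx2 y hy2 hxy
  have s1 := (q1.union q2 (by
    intro w h1 h2
    exact h2 (mem_union_left _ h1.1)))
  have s2 := s1.union q3 (by
    intro w h1 h2
    rcases h1 with h1 | h1
    · exact h1.2 (mem_union_left _ h2)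
    · exact h1 (mem_union_left _ (mem_sdiff.1 (f1 h2)).1))
  have s3 := s2.union q4 (by
    intro w h1 h2
    rcases h1 with (h1 | h1) | h1
    · exact h1.2 (mem_union_right _ (h2.2 h1.1))
    · exact h1 (mem_union_right _ h2.1)
    · exact (mem_sdiff.1 (f1 h1)).2 h2.1)
  refine s3.mt.mono ?_
  intro x hx
  simp only [mem_union, mem_filter] at hx ⊢
  rcases hx with (hx | hx) | hx
  · exact Or.inl (Or.inl (Or.inl hx))
  · by_cases hxK : x ∈ K
    · exact Or.inl (Or.inl (Or.inr hxK))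
    · have hxR : x ∈ R := mem_sdiff.2 ⟨hx, hxK⟩
      by_cases hxF : f x ∈ F
      · exact Or.inl (Or.inr ⟨hxR, hxF⟩)
      · exact Or.inr (Or.inl ⟨hxR, hxF⟩)
  · exact Or.inr (Or.inr hx)

/-- The exchange step for the part of `X` that lies in `D`: only the numbers of missing elements
of each class matter, and only up to `lam`. -/
theorem Pair.missing {E : Finset α} {G : α → Finset ω} {Nd : α → Finset ω'} {rs lam : ℕ}
    (h : Pair E G Nd rs) {DU : Finset α} (hDU : DU ⊆ E)
    (hI : ∀ I ⊆ DU, Mt Nd I → #I ≤ lam)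
    {ι : Type*} [DecidableEq ι] (c : α → ι) (hc : ∀ d ∈ DU, ∀ d' ∈ DU, c d = c d' → Nd d = Nd d')
    {W P P' : Finset α} (hW : Disjoint W DU) (hP' : P' ⊆ DU)
    (hcount : ∀ i, min lam #((DU \ P).filter (fun d => c d = i)) ≤
      #((DU \ P').filter (fun d => c d = i)))
    (hm : Mt G (W ∪ P)) : Mt G (W ∪ P') := by
  classical
  rw [h.mt_iff'] at hm ⊢
  obtain ⟨h1, J, h2, h3, h4⟩ := hm
  have hJE : J ⊆ E := h2.trans sdiff_subset
  have key := exists_typed (J ∩ DU) (DU \ P') c (by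
    intro i
    refine le_trans ?_ (hcount i)
    refine le_min ?_ ?_
    · refine hI _ ?_ (h3.mono ?_)
      · exact (filter_subset _ _).trans inter_subset_right
      · exact (filter_subset _ _).trans inter_subset_left
    · refine card_le_card ?_
      intro x hx
      simp only [mem_filter, mem_inter, mem_sdiff] at hx ⊢
      refine ⟨⟨hx.1.2, fun hxP => ?_⟩, hx.2⟩
      exact (mem_sdiff.1 (h2 hx.1.1)).2 (mem_union_right _ hxP))
  obtain ⟨φ, p1, p2⟩ := key
  set Φ : α → α := fun x => if x ∈ DU then φ x else x with hΦ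
  have hΦD : ∀ x ∈ J, x ∈ DU → Φ x ∈ DU \ P' ∧ c (Φ x) = c x := by
    intro x hxJ hxD
    simp only [hΦ, hxD, if_true]
    exact p1 x (mem_inter.2 ⟨hxJ, hxD⟩)
  have hΦN : ∀ x, x ∉ DU → Φ x = x := by
    intro x hx
    simp [hΦ, hx]
  have hΦi : Set.InjOn Φ (J : Set α) := by
    intro x hx y hy hxy
    have hx' : x ∈ J := hx
    have hy' : y ∈ J := hy
    by_cases hxD : x ∈ DU <;> by_cases hyD : y ∈ DU
    · simp only [hΦ, hxD, hyD, if_true] at hxy
      exact p2 (by simp [hx', hxD]) (by simp [hy', hyD]) hxy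
    · exfalso
      have := (hΦD x hx' hxD).1
      rw [hxy, hΦN y hyD] at this
      exact hyD (mem_sdiff.1 this).1
    · exfalso
      have := (hΦD y hy' hyD).1
      rw [← hxy, hΦN x hxD] at this
      exact hxD (mem_sdiff.1 this).1
    · rw [hΦN x hxD, hΦN y hyD] at hxy
      exact hxy
  refine ⟨?_, J.image Φ, ?_, ?_, ?_⟩
  · exact union_subset (subset_union_left.trans h1) (hP'.trans hDU)
  · intro x hx
    rw [mem_image] at hx
    obtain ⟨y, hy, rfl⟩ := hx
    by_cases hyD : y ∈ DU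
    · have := (hΦD y hy hyD).1
      rw [mem_sdiff] at this ⊢
      refine ⟨hDU this.1, fun hc2 => ?_⟩
      rw [mem_union] at hc2
      rcases hc2 with hc2 | hc2
      · exact disjoint_left.1 hW hc2 this.1
      · exact this.2 hc2
    · rw [hΦN y hyD]
      have := h2 hy
      rw [mem_sdiff] at this ⊢
      refine ⟨this.1, fun hc2 => ?_⟩
      rw [mem_union] at hc2
      rcases hc2 with hc2 | hc2
      · exact this.2 (mem_union_left _ hc2)
      · exact hyD (hP' hc2)
  · refine h3.image Φ hΦi ?_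
    intro x hx
    by_cases hxD : x ∈ DU
    · have := hΦD x hx hxD
      rw [hc _ (mem_sdiff.1 this.1).1 x hxD this.2]
    · rw [hΦN x hxD]
  · rw [card_image_of_injOn hΦi, h4]

lemma exists_code {β : Type*} (S : Finset β) {n : ℕ} (h : #S ≤ n) :
    ∃ κ : β → Fin (n + 1), Set.InjOn κ (S : Set β) := by
  classical
  refine ⟨fun x => if hx : x ∈ S then Fin.castLE (by omega) (S.equivFin ⟨x, hx⟩) else 0, ?_⟩
  intro x hx y hy hxy
  have hx' : x ∈ S := hx
  have hy' : y ∈ S := hy
  simp only [hx', hy', dif_pos] at hxy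
  have h1 := Fin.castLE_injective _ hxy
  have h2 := S.equivFin.injective h1
  simpa using h2

/-- the classes of elements of `D` -/
abbrev Cls (lam : ℕ) : Type := Set (Fin (lam + 1)) ⊕ Fin (lam + 1)

/-- the possible signatures -/
abbrev Sg (lam : ℕ) : Type :=
  (Cls lam → Fin (lam + 1)) × Set ((Set (Cls lam) → Fin (lam + 1)) × Set (Fin (lam + 1)))

/-- There are boundedly many classes. -/
theorem exists_cls [Nonempty ω'] {D : Finset α} {Nd : α → Finset ω'} {lam : ℕ}
    (hI : ∀ I ⊆ D, Mt Nd I → #I ≤ lam) :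
    ∃ c : α → Cls lam, ∀ d ∈ D, ∀ d' ∈ D, c d = c d' → Nd d = Nd d' := by
  classical
  obtain ⟨I, D₁, h1, h2, h3, h4⟩ := konig Nd D
  have h5 := hI I h1 h3
  obtain ⟨κ, hκ⟩ := exists_code (D₁.biUnion Nd) (n := lam) (by omega)
  obtain ⟨κ', hκ'⟩ := exists_code (D \ D₁) (n := lam) (by omega)
  refine ⟨fun d => if d ∈ D₁ then Sum.inl (κ '' (Nd d : Set ω')) else Sum.inr (κ' d), ?_⟩
  intro d hd d' hd' hdd
  by_cases h6 : d ∈ D₁ <;> by_cases h7 : d' ∈ D₁
  · simp only [h6, h7, if_true, Sum.inl.injEq] at hdd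
    have h8 : (Nd d : Set ω') ⊆ (D₁.biUnion Nd : Finset ω') := by
      intro w hw
      have : w ∈ D₁.biUnion Nd := mem_biUnion.2 ⟨d, h6, hw⟩
      exact this
    have h9 : (Nd d' : Set ω') ⊆ (D₁.biUnion Nd : Finset ω') := by
      intro w hw
      have : w ∈ D₁.biUnion Nd := mem_biUnion.2 ⟨d', h7, hw⟩
      exact this
    have h10 := (hκ.image_eq_image_iff h8 h9).1 hdd
    exact_mod_cast h10
  · simp [h6, h7] at hdd
  · simp [h6, h7] at hdd
  · simp only [h6, h7, if_false, Sum.inr.injEq] at hdd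
    have := hκ' (by simp [hd, h6]) (by simp [hd', h7]) hdd
    rw [this]

/-- The main theorem about presentations. -/
theorem Pair.main [Fintype α] [Fintype ω] [Nonempty ω] [Nonempty ω'] {E U : Finset α}
    {N : α → Finset ω}
    {Nd : α → Finset ω'} {rs lam : ℕ} (h₀ : Pair E N Nd rs) (hU : U ⊆ E)
    (hlam₀ : ∀ I ⊆ U, ∀ I' ⊆ E \ U, Mt N I → Mt N I' → #I + #I' + rs ≤ #E + lam) :
    ∃ sig : Finset α → Sg lam, ∀ X ⊆ U, ∀ X' ⊆ U, sig X = sig X' → ∀ Z ⊆ E \ U,
      Mt N (X ∪ Z) → Mt N (X' ∪ Z) := by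
  classical
  obtain ⟨G, hG, hmax⟩ := exists_max_pres N
  have h : Pair E G Nd rs := ⟨fun X => by rw [hG]; exact h₀.mt_iff' X, h₀.sub, h₀.le, h₀.ex⟩
  have hlam : ∀ I ⊆ U, ∀ I' ⊆ E \ U, Mt G I → Mt G I' → #I + #I' + rs ≤ #E + lam := by
    intro I hI I' hI' h1 h2
    exact hlam₀ I hI I' hI' ((hG I).1 h1) ((hG I').1 h2)
  have hclone : ∀ e ∈ E, ∀ f ∈ E, Nd e = Nd f → G e = G f := by
    intro e he f hf hef
    exact subset_antisymm (clone G hmax (h.swap he hf hef)) (clone G hmax (h.swap hf he hef.symm))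
  obtain ⟨YU, YV, D', y1, y2, y3, y4, y5, y6, y7⟩ := h.structure_ hlam
  set D := E \ (YU ∪ YV) with hD
  obtain ⟨c, hc⟩ := exists_cls y7
  have hDE : D ⊆ E := sdiff_subset
  have hcG : ∀ d ∈ D, ∀ d' ∈ D, c d = c d' → G d = G d' := by
    intro d hd d' hd' hdd
    exact hclone d (hDE hd) d' (hDE hd') (hc d hd d' hd' hdd)
  set A := YU.biUnion G with hA
  set B := YV.biUnion G with hB
  obtain ⟨κ, hκ⟩ := exists_code (A ∩ B) y3
  let ty : ω → Set (Cls lam) := fun w => {i | ∃ d ∈ D, c d = i ∧ w ∈ G d}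
  have hty : ∀ d ∈ D, ∀ w w', ty w = ty w' → w ∈ G d → w' ∈ G d := by
    intro d hd w w' hww hw
    have h1 : c d ∈ ty w := ⟨d, hd, rfl, hw⟩
    rw [hww] at h1
    obtain ⟨d', hd', h2, h3⟩ := h1
    rwa [hcG d' hd' d hd h2] at h3
  let sig : Finset α → Sg lam := fun X =>
    (fun i => ⟨min lam #(((D ∩ U) \ X).filter (fun d => c d = i)), by omega⟩,
      {p | ∃ F : Finset ω, F ⊆ A \ B ∧ #F ≤ lam ∧
        (∀ i, #(F.filter (fun w => ty w = i)) = (p.1 i : ℕ)) ∧
        MtP G (fun w => w ∉ F ∪ (A ∩ B).filter (fun w => κ w ∈ p.2)) (X ∩ YU)})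
  refine ⟨sig, ?_⟩
  intro X hX X' hX' hs Z hZ hm
  rw [← hG] at hm ⊢
  have hs1 : ∀ i, min lam #(((D ∩ U) \ X).filter (fun d => c d = i)) =
      min lam #(((D ∩ U) \ X').filter (fun d => c d = i)) := by
    intro i
    have h1 := congrArg (fun s : Sg lam => ((s.1 i : Fin (lam + 1)) : ℕ)) hs
    exact h1
  have hs2 : (sig X).2 = (sig X').2 := by rw [hs]
  have hUV : Disjoint YU YV := by
    rw [disjoint_left]
    intro x hx hx'
    exact (mem_sdiff.1 (y2 hx')).2 (y1 hx)
  have hDUd : Disjoint D YU := by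
    rw [disjoint_left]
    intro x hx hx'
    exact (mem_sdiff.1 hx).2 (mem_union_left _ hx')
  have hDVd : Disjoint D YV := by
    rw [disjoint_left]
    intro x hx hx'
    exact (mem_sdiff.1 hx).2 (mem_union_right _ hx')
  -- every set of `U` splits
  have hsplit : ∀ W ⊆ U, W = (W ∩ YU) ∪ (W ∩ D) := by
    intro W hW
    ext x
    simp only [mem_union, mem_inter, hD, mem_sdiff, not_or]
    constructor
    · intro hx
      by_cases hxY : x ∈ YU
      · exact Or.inl ⟨hx, hxY⟩
      · refine Or.inr ⟨hx, hU (hW hx), hxY, fun hc2 => ?_⟩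
        exact (mem_sdiff.1 (y2 hc2)).2 (hW hx)
    · rintro (⟨hx, _⟩ | ⟨hx, _⟩) <;> exact hx
  have hZsplit : Z = (Z ∩ YV) ∪ (Z ∩ D) := by
    ext x
    simp only [mem_union, mem_inter, hD, mem_sdiff, not_or]
    constructor
    · intro hx
      by_cases hxY : x ∈ YV
      · exact Or.inl ⟨hx, hxY⟩
      · have hxZ := mem_sdiff.1 (hZ hx)
        exact Or.inr ⟨hx, hxZ.1, fun hc2 => hxZ.2 (y1 hc2), hxY⟩
    · rintro (⟨hx, _⟩ | ⟨hx, _⟩) <;> exact hx
  -- first step
  have hdiff : ∀ W ⊆ U, (D ∩ U) \ (W ∩ D) = (D ∩ U) \ W := by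
    intro W hW
    ext x
    simp only [mem_sdiff, mem_inter]
    tauto
  have step1 : Mt G (((X ∩ YU) ∪ Z) ∪ (X' ∩ D)) := by
    refine h.missing (DU := D ∩ U) (lam := lam) (inter_subset_left.trans hDE) ?_ c ?_ (P := X ∩ D)
      ?_ ?_ ?_ ?_
    · intro I hI hIm
      exact y7 I (hI.trans inter_subset_left) hIm
    · intro d hd d' hd' hdd
      exact hc d (mem_inter.1 hd).1 d' (mem_inter.1 hd').1 hdd
    · rw [disjoint_left]
      intro x hx hx'
      rw [mem_union, mem_inter] at hx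
      rw [mem_inter] at hx'
      rcases hx with hx | hx
      · exact disjoint_left.1 hDUd hx'.1 hx.2
      · exact (mem_sdiff.1 (hZ hx)).2 hx'.2
    · intro x hx
      rw [mem_inter] at hx ⊢
      exact ⟨hx.2, hX' hx.1⟩
    · intro i
      rw [hdiff X hX, hdiff X' hX', hs1 i]
      exact min_le_right _ _
    · refine hm.mono ?_
      intro x hx
      simp only [mem_union, mem_inter] at hx ⊢
      tauto
  -- second step
  have step2 : Mt G ((X' ∩ YU) ∪ ((X' ∩ D) ∪ (Z ∩ D)) ∪ (Z ∩ YV)) := by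
    refine core (X₁ := X ∩ YU) (A := A) (B := B) (D := D) (D' := D') (YU := YU) (YV := YV)
      (lam := lam) ?_ ?_ hDUd hDVd hUV y5 y6 ty hty
      inter_subset_right inter_subset_right ?_ inter_subset_right ?_ ?_
    · intro x hx
      exact subset_biUnion_of_mem G hx
    · intro x hx
      exact subset_biUnion_of_mem G hx
    · exact union_subset inter_subset_right inter_subset_right
    · intro F C' hF hFc hC' hFm
      let p : (Set (Cls lam) → Fin (lam + 1)) × Set (Fin (lam + 1)) :=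
        (fun i => ⟨#(F.filter (fun w => ty w = i)), by
          have := card_le_card (filter_subset (fun w => ty w = i) F); omega⟩, κ '' (C' : Set ω))
      have hpC : (A ∩ B).filter (fun w => κ w ∈ p.2) = C' := by
        ext w
        simp only [mem_filter, p, Set.mem_image]
        constructor
        · rintro ⟨h1, w', h2, h3⟩
          have := hκ (hC' h2) h1 h3
          rwa [← this]
        · intro h1
          exact ⟨hC' h1, w, h1, rfl⟩
      have hp : p ∈ (sig X).2 := by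
        refine ⟨F, hF, hFc, fun i => rfl, ?_⟩
        rw [hpC]; exact hFm
      rw [hs2] at hp
      obtain ⟨F', h1, h2, h3, h4⟩ := hp
      rw [hpC] at h4
      refine ⟨F', h1, ?_, h4⟩
      intro i
      rw [h3 i]
    · refine step1.mono ?_
      intro x hx
      simp only [mem_union, mem_inter] at hx ⊢
      tauto
  refine step2.mono ?_
  intro x hx
  rw [mem_union] at hx
  rcases hx with hx | hx
  · rw [hsplit X' hX'] at hx
    simp only [mem_union, mem_inter] at hx ⊢
    tauto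
  · rw [hZsplit] at hx
    simp only [mem_union, mem_inter] at hx ⊢
    tauto

end Pool.Agent.Q164.PG
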